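import Mathlib
import Pool.Agent.W909.UG.Defs

set_option autoImplicit false

/-! UG-A1: the adjacency operator. -/

namespace Pool.Agent.W340.UG

open Pool.Agent.W909.UG

lemma inT_append (N : Tr) (v : List ℕ) (a : ℕ) : inT N (v ++ [a]) ↔ inT N v ∧ a < N v := by
  unfold inT
  constructor
  · intro h
    constructor
    · intro j hj
      have h1 := h j (by rw [List.length_append, List.length_singleton]; omega)
      rw [List.getD_append _ _ _ _ hj, List.take_append_of_le_length hj.le] at h1
      exact h1
    · have h1 := h v.length (by simp)
      rw [List.getD_append_right _ _ _ _ le_rfl] at h1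
      simpa using h1
  · rintro ⟨h, ha⟩ j hj
    rw [List.length_append, List.length_singleton] at hj
    rcases Nat.lt_or_ge j v.length with h1 | h1
    · rw [List.getD_append _ _ _ _ h1, List.take_append_of_le_length h1.le]
      exact h j h1
    · have : j = v.length := by omega
      subst this
      rw [List.getD_append_right _ _ _ _ le_rfl]
      simpa using ha

open Classical in
/-- the function of the lowering operator -/
noncomputable def lowF (N : Tr) (a : ℕ) (f : List ℕ → ℂ) : List ℕ → ℂ :=
  fun u => if inT N (u ++ [a]) then f (u ++ [a]) else 0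

lemma app_inj (a : ℕ) : Function.Injective (fun u : List ℕ => u ++ [a]) := by
  intro u v h
  exact List.append_cancel_right h

lemma two_pos : 0 < (2 : ENNReal).toReal := by norm_num

lemma low_sum (N : Tr) (a : ℕ) (f : H2) (s : Finset (List ℕ)) :
    ∑ u ∈ s, ‖lowF N a f u‖ ^ (2 : ENNReal).toReal ≤ ‖f‖ ^ (2 : ENNReal).toReal := by
  classical
  have h1 : ∑ u ∈ s, ‖lowF N a f u‖ ^ (2 : ENNReal).toReal ≤
      ∑ u ∈ s, ‖f (u ++ [a])‖ ^ (2 : ENNReal).toReal := by
    refine Finset.sum_le_sum fun u _ => ?_
    unfold lowF
    split_ifs
    · exact le_rfl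
    · rw [norm_zero, Real.zero_rpow two_pos.ne']
      exact Real.rpow_nonneg (norm_nonneg _) _
  have h2 := lp.sum_rpow_le_norm_rpow two_pos f (s.map ⟨_, app_inj a⟩)
  rw [Finset.sum_map] at h2
  exact h1.trans h2

/-- the lowering operator -/
noncomputable def low (N : Tr) (a : ℕ) : H2 →L[ℂ] H2 :=
  LinearMap.mkContinuous
    { toFun := fun f => ⟨lowF N a f, memℓp_gen' (C := ‖f‖ ^ (2 : ENNReal).toReal) (low_sum N a f)⟩
      map_add' := by
        intro f g
        ext u
        show lowF N a (f + g : H2) u = lowF N a f u + lowF N a g u
        unfold lowF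
        rw [lp.coeFn_add, Pi.add_apply]
        split_ifs
        · rfl
        · rw [add_zero]
      map_smul' := by
        intro c f
        ext u
        show lowF N a (c • f : H2) u = c • lowF N a f u
        unfold lowF
        rw [lp.coeFn_smul, Pi.smul_apply]
        split_ifs
        · rfl
        · rw [smul_zero] } 1 (by
      intro f
      rw [one_mul]
      exact lp.norm_le_of_forall_sum_le two_pos (norm_nonneg f) (low_sum N a f))

lemma low_apply (N : Tr) (a : ℕ) (f : H2) (u : List ℕ) : low N a f u = lowF N a f u := rfl

lemma low_norm (N : Tr) (a : ℕ) : ‖low N a‖ ≤ 1 := LinearMap.mkContinuous_norm_le _ zero_le_one _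

open Classical in
lemma adj_apply (N : Tr) (a : ℕ) (f : H2) (v : List ℕ) :
    (ContinuousLinearMap.adjoint (low N a) f) v =
      if v = v.dropLast ++ [a] ∧ inT N v then f v.dropLast else 0 := by
  have h1 : (ContinuousLinearMap.adjoint (low N a) f) v =
      inner ℂ (low N a (lp.single 2 v (1 : ℂ))) f := by
    rw [← ContinuousLinearMap.adjoint_inner_right, lp.inner_single_left]
    simp
  rw [h1]
  split_ifs with h
  · have h2 : low N a (lp.single 2 v (1 : ℂ)) = lp.single 2 v.dropLast (1 : ℂ) := by
      ext u
      rw [low_apply]
      unfold lowF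
      rw [lp.coeFn_single, lp.coeFn_single]
      by_cases hu : u = v.dropLast
      · subst hu
        rw [← h.1, if_pos h.2, Pi.single_eq_same, Pi.single_eq_same]
      · have hne : u ++ [a] ≠ v := by
          intro h3
          apply hu
          rw [← h3, List.dropLast_concat]
        rw [Pi.single_eq_of_ne hne, Pi.single_eq_of_ne hu, ite_self]
    rw [h2, lp.inner_single_left]
    simp
  · have h2 : low N a (lp.single 2 v (1 : ℂ)) = 0 := by
      ext u
      rw [low_apply]
      unfold lowF
      rw [lp.coeFn_single]
      show _ = (0 : ℂ)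
      split_ifs with h3
      · by_cases hu : u ++ [a] = v
        · exfalso
          apply h
          subst hu
          exact ⟨by rw [List.dropLast_concat], h3⟩
        · rw [Pi.single_eq_of_ne hu]
      · rfl
    rw [h2, inner_zero_left]

theorem a1 : TaskA1 := by
  classical
  intro D N hN
  refine ⟨∑ a ∈ Finset.range D, (low N a + ContinuousLinearMap.adjoint (low N a)), ?_, ?_, ?_⟩
  · rw [IsSelfAdjoint, star_sum]
    refine Finset.sum_congr rfl fun a _ => ?_
    rw [star_add, ContinuousLinearMap.star_eq_adjoint, ContinuousLinearMap.star_eq_adjoint,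
      ContinuousLinearMap.adjoint_adjoint, add_comm]
  · intro f v
    have h1 : ((∑ a ∈ Finset.range D, (low N a + ContinuousLinearMap.adjoint (low N a))) f :
        List ℕ → ℂ) v = ∑ a ∈ Finset.range D, lowF N a f v +
        ∑ a ∈ Finset.range D, (if v = v.dropLast ++ [a] ∧ inT N v then f v.dropLast else 0) := by
      rw [sum_apply, ← Finset.sum_add_distrib]
      have h2 : ((∑ a ∈ Finset.range D, (low N a + ContinuousLinearMap.adjoint (low N a)) f : H2) :
          List ℕ → ℂ) v = ∑ a ∈ Finset.range D,
          ((low N a + ContinuousLinearMap.adjoint (low N a)) f : List ℕ → ℂ) v := by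
        rw [lp.coeFn_sum, Finset.sum_apply]
      rw [h2]
      refine Finset.sum_congr rfl fun a _ => ?_
      rw [← adj_apply]
      rfl
    rw [h1, add_comm]
    have h3 : ∑ a ∈ Finset.range D, lowF N a f v =
        if inT N v then ∑ a ∈ Finset.range (N v), f (v ++ [a]) else 0 := by
      unfold lowF
      split_ifs with h
      · have h4 : Finset.range (N v) ⊆ Finset.range D := Finset.range_subset_range.mpr (hN v)
        rw [← Finset.sum_subset h4 (f := fun a => if inT N (v ++ [a]) then f (v ++ [a]) else 0)]
        · refine Finset.sum_congr rfl fun a ha => ?_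
          rw [if_pos ((inT_append N v a).mpr ⟨h, Finset.mem_range.mp ha⟩)]
        · intro a _ ha
          rw [if_neg]
          intro h5
          exact ha (Finset.mem_range.mpr ((inT_append N v a).mp h5).2)
      · refine Finset.sum_eq_zero fun a _ => ?_
        rw [if_neg]
        intro h5
        exact h ((inT_append N v a).mp h5).1
    rw [h3]
    rcases List.eq_nil_or_concat v with rfl | ⟨w, b, rfl⟩
    · have h4 : inT N [] := by intro j hj; simp at hj
      rw [if_pos h4, if_pos h4, if_pos rfl]
      congr 1
      refine Finset.sum_eq_zero fun a _ => ?_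
      rw [if_neg]
      simp
    · rw [List.concat_eq_append, List.dropLast_concat]
      by_cases h : inT N (w ++ [b])
      · rw [if_pos h, if_pos h, if_neg (by simp)]
        congr 1
        have hb : b ∈ Finset.range D :=
          Finset.mem_range.mpr (((inT_append N w b).mp h).2.trans_le (hN w))
        rw [Finset.sum_eq_single_of_mem b hb]
        · rw [if_pos ⟨rfl, h⟩]
        · intro a _ hab
          rw [if_neg]
          rintro ⟨h5, _⟩
          apply hab
          have := List.append_cancel_left h5
          simpa using this.symm
      · rw [if_neg h, if_neg h, add_zero]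
        refine Finset.sum_eq_zero fun a _ => ?_
        rw [if_neg]
        rintro ⟨_, h5⟩
        exact h h5
  · refine (norm_sum_le _ _).trans ?_
    have h1 : ∀ a ∈ Finset.range D, ‖low N a + ContinuousLinearMap.adjoint (low N a)‖ ≤ 2 := by
      intro a _
      refine (norm_add_le _ _).trans ?_
      rw [LinearIsometryEquiv.norm_map]
      have := low_norm N a
      linarith
    refine (Finset.sum_le_sum h1).trans ?_
    rw [Finset.sum_const, Finset.card_range, nsmul_eq_mul]
    linarith

end Pool.Agent.W340.UG
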