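import Mathlib
import Pool.Agent.W909.UG.Defs

set_option autoImplicit false

/-! UG-A3: gluing of the resolvent vectors. -/

namespace Pool.Agent.W340.UG.A3

open Pool.Agent.W909.UG

/-- the shifted function -/
noncomputable def shF (a : ℕ) (f : List ℕ → ℂ) : List ℕ → ℂ
  | [] => 0
  | b :: w => if b = a then f w else 0

lemma two_pos : 0 < (2 : ENNReal).toReal := by norm_num

lemma sh_sum (a : ℕ) (f : H2) (s : Finset (List ℕ)) :
    ∑ u ∈ s, ‖shF a f u‖ ^ (2 : ENNReal).toReal ≤ ‖f‖ ^ (2 : ENNReal).toReal := by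
  classical
  have hinj : Function.Injective (fun w : List ℕ => a :: w) := by
    intro u v h
    simpa using h
  rw [← Finset.sum_preimage (fun w : List ℕ => a :: w) s hinj.injOn
    (fun u => ‖shF a f u‖ ^ (2 : ENNReal).toReal)]
  · have h1 : ∀ w : List ℕ, shF a f (a :: w) = f w := by
      intro w
      simp [shF]
    simp only [h1]
    exact lp.sum_rpow_le_norm_rpow two_pos f _
  · intro u _ hu
    have h0 : shF a f u = 0 := by
      cases u with
      | nil => rfl
      | cons b w =>
        rw [shF, if_neg]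
        rintro rfl
        exact hu ⟨w, rfl⟩
    rw [h0, norm_zero, Real.zero_rpow two_pos.ne']

/-- the shifted vector -/
noncomputable def sh (a : ℕ) (f : H2) : H2 :=
  ⟨shF a f, memℓp_gen' (C := ‖f‖ ^ (2 : ENNReal).toReal) (sh_sum a f)⟩

lemma sh_apply (a : ℕ) (f : H2) (v : List ℕ) : sh a f v = shF a f v := rfl

lemma dl_nil : (dl : List ℕ → ℂ) [] = 1 := by
  unfold dl
  rw [lp.coeFn_single, Pi.single_eq_same]

lemma dl_cons (b : ℕ) (w : List ℕ) : (dl : List ℕ → ℂ) (b :: w) = 0 := by
  unfold dl
  rw [lp.coeFn_single, Pi.single_eq_of_ne]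
  simp

/-- the glued vector -/
noncomputable def glue (k : ℕ) (φ : ℕ → H2) : H2 := dl + ∑ a ∈ Finset.range k, sh a (φ a)

lemma glue_apply (k : ℕ) (φ : ℕ → H2) (v : List ℕ) :
    glue k φ v = (dl : List ℕ → ℂ) v + ∑ a ∈ Finset.range k, shF a (φ a) v := by
  unfold glue
  rw [lp.coeFn_add, Pi.add_apply, lp.coeFn_sum, Finset.sum_apply]
  rfl

lemma glue_nil (k : ℕ) (φ : ℕ → H2) : glue k φ [] = 1 := by
  rw [glue_apply, dl_nil]
  simp [shF]

lemma glue_cons (k : ℕ) (φ : ℕ → H2) (b : ℕ) (w : List ℕ) :
    glue k φ (b :: w) = if b < k then φ b w else 0 := by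
  rw [glue_apply, dl_cons, zero_add]
  simp only [shF]
  rw [Finset.sum_ite_eq (Finset.range k) b (fun a => φ a w)]
  simp only [Finset.mem_range]

lemma inT_cons (N : Tr) (b : ℕ) (w : List ℕ) : inT N (b :: w) ↔ b < N [] ∧ inT (sub N b) w := by
  unfold inT
  constructor
  · intro h
    refine ⟨?_, ?_⟩
    · have := h 0 (by simp)
      simpa using this
    · intro j hj
      have := h (j + 1) (by simpa using hj)
      simpa [sub] using this
  · rintro ⟨h1, h2⟩ j hj
    cases j with
    | zero => simpa using h1
    | succ j =>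
      have := h2 j (by simpa using hj)
      simpa [sub] using this

lemma inT_nil (N : Tr) : inT N [] := by
  intro j hj
  simp at hj

theorem a3 : TaskA3 := by
  classical
  intro D N _ A hA B hB z _ φ hφ
  refine ⟨glue (N []) φ, glue_nil _ _, ?_⟩
  ext v
  have hv : (z • glue (N []) φ - A (glue (N []) φ) : H2) v =
      z * glue (N []) φ v - A (glue (N []) φ) v := by
    rw [lp.coeFn_sub, Pi.sub_apply, lp.coeFn_smul, Pi.smul_apply, smul_eq_mul]
  have hr : ((z - ∑ a ∈ Finset.range (N []), (φ a : List ℕ → ℂ) []) • dl : H2) v =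
      (z - ∑ a ∈ Finset.range (N []), (φ a : List ℕ → ℂ) []) * (dl : List ℕ → ℂ) v := by
    rw [lp.coeFn_smul, Pi.smul_apply, smul_eq_mul]
  rw [hv, hr, hA]
  cases v with
  | nil =>
    rw [if_pos (inT_nil N), if_pos rfl, zero_add, glue_nil, dl_nil, mul_one, mul_one]
    congr 1
    refine Finset.sum_congr rfl fun a ha => ?_
    rw [List.nil_append, glue_cons, if_pos (Finset.mem_range.mp ha)]
  | cons b w =>
    rw [dl_cons, mul_zero, glue_cons]
    by_cases hb : b < N []
    · rw [if_pos hb]
      have h1 := congrArg (fun f : H2 => (f : List ℕ → ℂ) w) (hφ b hb)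
      have h2 : (z • φ b - B b (φ b) : H2) w = z * φ b w - B b (φ b) w := by
        rw [lp.coeFn_sub, Pi.sub_apply, lp.coeFn_smul, Pi.smul_apply, smul_eq_mul]
      simp only at h1
      rw [h2, hB b hb] at h1
      by_cases hT : inT (sub N b) w
      · rw [if_pos ((inT_cons N b w).mpr ⟨hb, hT⟩), if_neg (by simp)]
        rw [if_pos hT] at h1
        have h3 : ∑ a ∈ Finset.range (N (b :: w)), glue (N []) φ (b :: w ++ [a]) =
            ∑ a ∈ Finset.range (sub N b w), φ b (w ++ [a]) := by
          refine Finset.sum_congr rfl fun a _ => ?_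
          rw [List.cons_append, glue_cons, if_pos hb]
        rw [h3]
        cases w with
        | nil =>
          rw [if_pos rfl, dl_nil] at h1
          rw [show [b].dropLast = [] from rfl, glue_nil]
          linear_combination h1
        | cons c w =>
          rw [if_neg (by simp), dl_cons] at h1
          rw [List.dropLast_cons_cons, glue_cons, if_pos hb]
          linear_combination h1
      · rw [if_neg (fun h => hT ((inT_cons N b w).mp h).2)]
        rw [if_neg hT] at h1
        cases w with
        | nil => exact absurd (inT_nil _) hT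
        | cons c w =>
          rw [dl_cons] at h1
          exact h1
    · rw [if_neg hb, if_neg (fun h => hb ((inT_cons N b w).mp h).1), mul_zero, sub_zero]

end Pool.Agent.W340.UG.A3
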