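import Mathlib
import Pool.Agent.W909.UG.Defs
import Pool.Agent.H792R3.SpecMeas

set_option autoImplicit false

/-! UG-A4: spectral measure of a unit vector and its Stieltjes transform. -/

namespace Pool.Agent.W340.UG

open MeasureTheory Filter Topology Pool.Agent.W909.UG

section
variable {X : Type} [NormedAddCommGroup X] [InnerProductSpace ℂ X] [CompleteSpace X]
  {H : X →L[ℂ] X}

/-- the function `1 / ((a - x)^2 + b^2)` -/
noncomputable def gg (a b x : ℝ) : ℝ := ((a - x) ^ 2 + b ^ 2)⁻¹

lemma gg_ne {a b x : ℝ} (hb : 0 < b) : (a - x) ^ 2 + b ^ 2 ≠ 0 := by positivity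

lemma gg_cont {a b : ℝ} (hb : 0 < b) : Continuous (gg a b) := by
  unfold gg
  exact Continuous.inv₀ (by fun_prop) fun x => gg_ne hb

lemma real_smul_eq (r : ℝ) (T : X →L[ℂ] X) (v : X) : (r • T) v = (r : ℂ) • T v := by
  show r • T v = (r : ℂ) • T v
  rw [Complex.coe_smul]

lemma cfc_x_mul (hH : IsSelfAdjoint H) {f : ℝ → ℝ} (hf : Continuous f) (v : X) :
    H (cfc f H v) = cfc (fun x => x * f x) H v := by
  have h1 : cfc (fun x => x * f x) H = H * cfc f H := by
    rw [cfc_mul (fun x : ℝ => x) f H continuousOn_id hf.continuousOn]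
    rw [cfc_id' ℝ H hH]
  rw [h1]
  rfl

/-- the resolvent vector -/
noncomputable def psi (H : X →L[ℂ] X) (z : ℂ) (φ : X) : X :=
  ((starRingEnd ℂ) z) • cfc (gg z.re z.im) H φ - H (cfc (gg z.re z.im) H φ)

lemma psi_eq (hH : IsSelfAdjoint H) {z : ℂ} (hz : 0 < z.im) (φ : X) :
    z • psi H z φ - H (psi H z φ) = φ := by
  set a := z.re with ha
  set b := z.im with hb
  have hg := gg_cont (a := a) hz
  have hg1 : Continuous (fun x => x * gg a b x) := continuous_id.mul hg
  have h1 : H (cfc (gg a b) H φ) = cfc (fun x => x * gg a b x) H φ := cfc_x_mul hH hg φ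
  have h2 : H (cfc (fun x => x * gg a b x) H φ) = cfc (fun x => x * (x * gg a b x)) H φ :=
    cfc_x_mul hH hg1 φ
  have h3 : cfc (fun x => (a ^ 2 + b ^ 2) * gg a b x + ((-2 * a) * (x * gg a b x) +
      x * (x * gg a b x))) H = 1 := by
    rw [← cfc_one ℝ H]
    apply cfc_congr
    intro x _
    simp only [gg, Pi.one_apply]
    have := gg_ne (a := a) (x := x) hz
    field_simp
    ring
  have h4 : cfc (fun x => (a ^ 2 + b ^ 2) * gg a b x + ((-2 * a) * (x * gg a b x) +
      x * (x * gg a b x))) H φ = ((a ^ 2 + b ^ 2 : ℝ) : ℂ) • cfc (gg a b) H φ +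
      (((-2 * a : ℝ) : ℂ) • cfc (fun x => x * gg a b x) H φ +
        cfc (fun x => x * (x * gg a b x)) H φ) := by
    have c2 : Continuous (fun x => x * (x * gg a b x)) := continuous_id.mul hg1
    rw [cfc_add (a := H) (fun x => (a ^ 2 + b ^ 2) * gg a b x) (fun x => (-2 * a) * (x * gg a b x) +
      x * (x * gg a b x)) (continuous_const.mul hg).continuousOn
        ((continuous_const.mul hg1).add c2).continuousOn,
      cfc_add (a := H) (fun x => (-2 * a) * (x * gg a b x)) (fun x => x * (x * gg a b x))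
        (continuous_const.mul hg1).continuousOn c2.continuousOn,
      cfc_const_mul (a ^ 2 + b ^ 2) (gg a b) H hg.continuousOn,
      cfc_const_mul (-2 * a) (fun x => x * gg a b x) H hg1.continuousOn]
    simp only [add_apply, real_smul_eq]
  rw [h3] at h4
  have h5 : φ = ((a ^ 2 + b ^ 2 : ℝ) : ℂ) • cfc (gg a b) H φ +
      (((-2 * a : ℝ) : ℂ) • cfc (fun x => x * gg a b x) H φ +
        cfc (fun x => x * (x * gg a b x)) H φ) := h4
  unfold psi
  rw [← ha, ← hb, h1, map_sub, map_smul, h1, h2]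
  refine Eq.trans ?_ h5.symm
  have hzz : z * (starRingEnd ℂ) z = ((a ^ 2 + b ^ 2 : ℝ) : ℂ) := by
    rw [Complex.mul_conj, Complex.normSq_apply, ha, hb]
    push_cast; ring
  have hzs : (starRingEnd ℂ) z = ((2 * a : ℝ) : ℂ) - z := by
    apply Complex.ext
    · simp [ha]; ring
    · simp
  rw [smul_sub, smul_smul, hzz, hzs]
  push_cast
  module

lemma unique (hH : IsSelfAdjoint H) {z : ℂ} (hz : 0 < z.im) {φ ψ ψ' : X}
    (h : z • ψ - H ψ = φ) (h' : z • ψ' - H ψ' = φ) : ψ = ψ' := by
  rw [← sub_eq_zero]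
  set w := ψ - ψ' with hw
  have h1 : z • w = H w := by
    rw [hw, smul_sub, map_sub]
    have : z • ψ - H ψ - (z • ψ' - H ψ') = 0 := by rw [h, h', sub_self]
    rw [← sub_eq_zero, ← this]
    abel
  have h2 : inner ℂ w (H w) = (starRingEnd ℂ) (inner ℂ w (H w)) := by
    rw [inner_conj_symm]
    exact (hH.isSymmetric w w).symm
  have h3 : (inner ℂ w (H w)).im = 0 := by
    have := congrArg Complex.im h2
    rw [Complex.conj_im] at this
    linarith
  rw [← h1, inner_smul_right, inner_self_eq_norm_sq_to_K] at h3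
  have h4 : z.im * ‖w‖ ^ 2 = 0 := by
    have h5 : (z * ((‖w‖ : ℝ) : ℂ) ^ 2).im = z.im * ‖w‖ ^ 2 := by
      rw [← Complex.ofReal_pow, Complex.mul_im, Complex.ofReal_im, Complex.ofReal_re]
      ring
    rw [← h5]; exact h3
  have h6 : ‖w‖ ^ 2 = 0 := by
    rcases mul_eq_zero.mp h4 with h | h
    · exact absurd h hz.ne'
    · exact h
  exact norm_eq_zero.mp (pow_eq_zero_iff (two_ne_zero) |>.mp h6)

end

theorem a4 : TaskA4 := by
  intro X _ _ _ H hH φ hφ
  refine ⟨fun z hz => ⟨psi H z φ, psi_eq hH hz φ⟩, ?_⟩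
  obtain ⟨μ, hfin, hμ⟩ := Pool.Agent.H792R3.exists_specMeas H hH φ
  have hφ0 : φ ≠ 0 := by
    rintro rfl
    rw [norm_zero] at hφ
    exact zero_ne_one hφ
  have hnt : Nontrivial X := ⟨φ, 0, hφ0⟩
  refine ⟨μ, ?_, ?_, ?_, ?_⟩
  · constructor
    have h1 := (hμ (fun _ => 1) continuous_const).2
    have h2 : cfc (fun _ : ℝ => (1 : ℝ)) H = 1 := cfc_const_one ℝ H
    rw [h2, integral_const, smul_eq_mul, mul_one] at h1
    have h3 : inner ℂ φ ((1 : X →L[ℂ] X) φ) = 1 := by
      show inner ℂ φ φ = 1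
      rw [inner_self_eq_norm_sq_to_K, hφ]; simp
    rw [h3] at h1
    have h4 : μ.real Set.univ = 1 := by exact_mod_cast h1
    rw [Measure.real, ENNReal.toReal_eq_one_iff] at h4
    exact h4
  · have hc : Continuous (fun x : ℝ => max 0 (|x| - ‖H‖)) := by fun_prop
    obtain ⟨hint, h1⟩ := hμ _ hc
    have h2 : cfc (fun x : ℝ => max 0 (|x| - ‖H‖)) H = 0 := by
      rw [← cfc_zero ℝ H]
      apply cfc_congr
      intro x hx
      have h3 : ‖x‖ ≤ ‖H‖ := spectrum.norm_le_norm_of_mem hx
      rw [Real.norm_eq_abs] at h3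
      show max 0 (|x| - ‖H‖) = 0
      exact max_eq_left (by linarith)
    rw [h2] at h1
    have h4 : ∫ x : ℝ, max 0 (|x| - ‖H‖) ∂μ = 0 := by
      have h5 : inner ℂ φ ((0 : X →L[ℂ] X) φ) = 0 := by simp
      rw [h5] at h1
      exact_mod_cast h1
    have h5 := (integral_eq_zero_iff_of_nonneg (f := fun x : ℝ => max 0 (|x| - ‖H‖))
      (fun x => le_max_left _ _) hint).mp h4
    refine measure_mono_null ?_ h5
    intro x hx
    show ¬ _
    intro h6
    apply hx
    have h7 : max 0 (|x| - ‖H‖) = 0 := h6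
    have h8 : |x| - ‖H‖ ≤ 0 := by rw [← h7]; exact le_max_right _ _
    rw [Set.mem_Icc]
    exact abs_le.mp (by linarith)
  · intro k
    rw [(hμ (fun x => x ^ k) (continuous_pow k)).2, cfc_pow_id (R := ℝ) H k hH]
  · intro z hz ψ hψ
    rw [unique hH hz hψ (psi_eq hH hz φ)]
    set a := z.re with ha
    set b := z.im with hb
    have hg := gg_cont (a := a) hz
    have hg1 : Continuous (fun x => x * gg a b x) := continuous_id.mul hg
    have hg2 : Continuous (fun x => (a - x) * gg a b x) :=
      (continuous_const.sub continuous_id).mul hg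
    have e1 : ∀ x : ℝ, (z - (x : ℂ))⁻¹ = (((a - x) * gg a b x : ℝ) : ℂ) -
        (b : ℂ) * Complex.I * ((gg a b x : ℝ) : ℂ) := by
      intro x
      have h1 : Complex.normSq (z - (x : ℂ)) = (a - x) ^ 2 + b ^ 2 := by
        rw [Complex.normSq_apply]
        simp only [Complex.sub_re, Complex.sub_im, Complex.ofReal_re, Complex.ofReal_im]
        rw [← ha, ← hb]; ring
      rw [Complex.inv_def, h1]
      unfold gg
      apply Complex.ext
      · simp only [Complex.mul_re, Complex.sub_re, Complex.conj_re, Complex.conj_im,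
          Complex.ofReal_re, Complex.ofReal_im, Complex.sub_im, Complex.mul_im, Complex.I_re,
          Complex.I_im]
        rw [← ha]; ring
      · simp only [Complex.mul_re, Complex.sub_re, Complex.conj_re, Complex.conj_im,
          Complex.ofReal_re, Complex.ofReal_im, Complex.sub_im, Complex.mul_im, Complex.I_re,
          Complex.I_im]
        rw [← hb]; ring
    have hi1 := (hμ _ hg2)
    have hi2 := (hμ _ hg)
    have e2 : st μ z = ((∫ x, (a - x) * gg a b x ∂μ : ℝ) : ℂ) -
        (b : ℂ) * Complex.I * ((∫ x, gg a b x ∂μ : ℝ) : ℂ) := by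
      unfold st
      simp only [e1]
      rw [integral_sub hi1.1.ofReal (hi2.1.ofReal.const_mul _), integral_complex_ofReal,
        integral_const_mul, integral_complex_ofReal]
    rw [e2, hi1.2, hi2.2]
    have e3 : cfc (fun x => (a - x) * gg a b x) H φ = (a : ℂ) • cfc (gg a b) H φ -
        H (cfc (gg a b) H φ) := by
      have h1 : cfc (fun x => (a - x) * gg a b x) H =
          cfc (fun x => a * gg a b x - x * gg a b x) H := by
        congr 1
        funext x; ring
      rw [h1, cfc_sub (a := H) (fun x => a * gg a b x) (fun x => x * gg a b x)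
        (continuous_const.mul hg).continuousOn hg1.continuousOn,
        cfc_const_mul a (gg a b) H hg.continuousOn, cfc_x_mul hH hg]
      simp only [sub_apply, real_smul_eq]
    unfold psi
    rw [e3, ← ha, ← hb, inner_sub_right, inner_sub_right, inner_smul_right, inner_smul_right]
    have e4 : (starRingEnd ℂ) z = (a : ℂ) - (b : ℂ) * Complex.I := by
      apply Complex.ext
      · simp [ha]
      · simp [hb]
    rw [e4]
    ring

end Pool.Agent.W340.UG
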