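import Mathlib
import Pool.Agent.W909.UG.Defs

set_option autoImplicit false

/-! UG-B2: the four cases of the recursion at a point. -/

namespace Pool.Agent.W340.UG

open MeasureTheory Filter Topology Pool.Agent.W909.UG

/-- the Stieltjes transform on the vertical line -/
noncomputable def SS (μ : Measure ℝ) (l t : ℝ) : ℂ := st μ ((l : ℂ) + (t : ℂ) * Complex.I)

/-- the denominator -/
noncomputable def DD (k : ℕ) (ν : ℕ → Measure ℝ) (l t : ℝ) : ℂ :=
  ((l : ℂ) + (t : ℂ) * Complex.I) - ∑ a ∈ Finset.range k, SS (ν a) l t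

lemma evpos : ∀ᶠ t : ℝ in 𝓝[>] (0 : ℝ), 0 < t := self_mem_nhdsWithin

lemma tend_t : Tendsto (fun t : ℝ => (t : ℂ)) (𝓝[>] 0) (𝓝 0) := by
  have h : Tendsto (fun t : ℝ => (t : ℂ)) (𝓝 0) (𝓝 ((0 : ℝ) : ℂ)) :=
    (Complex.continuous_ofReal.tendsto 0)
  rw [Complex.ofReal_zero] at h
  exact h.mono_left nhdsWithin_le_nhds

lemma tend_z (l : ℝ) : Tendsto (fun t : ℝ => (l : ℂ) + (t : ℂ) * Complex.I) (𝓝[>] 0) (𝓝 (l : ℂ)) := by
  have h := (tendsto_const_nhds (x := (l : ℂ))).add (tend_t.mul_const Complex.I)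
  simpa using h

section
variable {l : ℝ} {μ : Measure ℝ} {k : ℕ} {ν : ℕ → Measure ℝ}

/-- part 2 in terms of imaginary parts -/
lemma im_tend (hB : TaskB1) (hμ : IsProbabilityMeasure μ) (h : sg μ l ≠ ⊤) :
    Tendsto (fun t : ℝ => -(SS μ l t).im / t) (𝓝[>] 0) (𝓝 (sg μ l).toReal) := by
  have h1 := ((hB μ hμ l).2.1 h).2.2.2
  have h2 := (Complex.continuous_im.tendsto _).comp h1
  have h3 : (-(((sg μ l).toReal : ℝ) : ℂ) * Complex.I).im = -(sg μ l).toReal := by
    simp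
  rw [h3] at h2
  have h4 := h2.neg
  rw [neg_neg] at h4
  refine h4.congr fun t => ?_
  simp only [Function.comp, SS]
  rw [Complex.div_ofReal_im, Complex.sub_im, Complex.ofReal_im, sub_zero, neg_div]

/-- finiteness from boundedness of the imaginary part -/
lemma ne_top (hB : TaskB1) (hμ : IsProbabilityMeasure μ) {c : ℝ}
    (h : Tendsto (fun t : ℝ => -(SS μ l t).im / t) (𝓝[>] 0) (𝓝 c)) : sg μ l ≠ ⊤ := by
  intro ht
  exact not_tendsto_nhds_of_tendsto_atTop ((hB μ hμ l).2.2.1 ht) c h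

lemma im_D (t : ℝ) (ht : 0 < t) : (DD k ν l t).im / t =
    1 + ∑ a ∈ Finset.range k, -(SS (ν a) l t).im / t := by
  unfold DD
  rw [Complex.sub_im, Complex.im_sum]
  have h1 : ((l : ℂ) + (t : ℂ) * Complex.I).im = t := by simp
  rw [h1, sub_div, div_self ht.ne', Finset.sum_div, sub_eq_add_neg, ← Finset.sum_neg_distrib]
  congr 1
  refine Finset.sum_congr rfl fun a _ => ?_
  rw [neg_div]

lemma im_S {S D : ℂ} (h : S * D = 1) (t : ℝ) : -S.im / t = (D.im / t) / ‖D‖ ^ 2 := by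
  have hD : D ≠ 0 := right_ne_zero_of_mul_eq_one h
  have hS : S = D⁻¹ := eq_inv_of_mul_eq_one_left h
  rw [hS, Complex.inv_im, Complex.normSq_eq_norm_sq]
  ring

lemma case1 (hB : TaskB1) (hμ : IsProbabilityMeasure μ)
    (hν : ∀ a < k, IsProbabilityMeasure (ν a))
    (h : ∀ t : ℝ, 0 < t → SS μ l t * DD k ν l t = 1) (hex : ∃ a < k, ν a {l} ≠ 0) :
    sg μ l ≠ ⊤ ∧ rr μ l = 0 ∧
    (sg μ l).toReal * ∑ a ∈ Finset.range k, (ν a).real {l} = 1 := by
  set M : ℝ := ∑ a ∈ Finset.range k, (ν a).real {l} with hM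
  have hMpos : 0 < M := by
    obtain ⟨a, ha, h0⟩ := hex
    have := hν a ha
    refine Finset.sum_pos' (fun i _ => measureReal_nonneg) ⟨a, Finset.mem_range.mpr ha, ?_⟩
    exact ENNReal.toReal_pos h0 (measure_ne_top _ _)
  have hMc : ((M : ℝ) : ℂ) ≠ 0 := by exact_mod_cast hMpos.ne'
  have h1 : Tendsto (fun t : ℝ => (t : ℂ) * Complex.I * DD k ν l t) (𝓝[>] 0)
      (𝓝 (-((M : ℝ) : ℂ))) := by
    have h2 : Tendsto (fun t : ℝ => (t : ℂ) * Complex.I * ((l : ℂ) + (t : ℂ) * Complex.I) -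
        ∑ a ∈ Finset.range k, (t : ℂ) * Complex.I * SS (ν a) l t) (𝓝[>] 0)
        (𝓝 (0 * Complex.I * (l : ℂ) - ∑ a ∈ Finset.range k, (((ν a).real {l} : ℝ) : ℂ))) := by
      refine ((tend_t.mul_const _).mul (tend_z l)).sub (tendsto_finsetSum _ fun a ha => ?_)
      exact (hB (ν a) (hν a (Finset.mem_range.mp ha)) l).1
    have h3 : (0 * Complex.I * (l : ℂ) - ∑ a ∈ Finset.range k, (((ν a).real {l} : ℝ) : ℂ)) =
        -((M : ℝ) : ℂ) := by
      rw [hM]; push_cast; ring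
    rw [h3] at h2
    refine h2.congr fun t => ?_
    unfold DD
    rw [mul_sub, Finset.mul_sum]
  -- `S / t → - I / M`
  have h4 : Tendsto (fun t : ℝ => SS μ l t / (t : ℂ)) (𝓝[>] 0)
      (𝓝 (Complex.I / (-((M : ℝ) : ℂ)))) := by
    have h5 := (tendsto_const_nhds (x := Complex.I)).div h1 (neg_ne_zero.mpr hMc)
    refine h5.congr' ?_
    filter_upwards [evpos] with t ht
    have h6 := h t ht
    have hD : DD k ν l t ≠ 0 := right_ne_zero_of_mul_eq_one h6
    have htc : (t : ℂ) ≠ 0 := by exact_mod_cast ht.ne'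
    have hS : SS μ l t = (DD k ν l t)⁻¹ := eq_inv_of_mul_eq_one_left h6
    rw [hS]
    show Complex.I / ((t : ℂ) * Complex.I * DD k ν l t) = (DD k ν l t)⁻¹ / (t : ℂ)
    have := Complex.I_ne_zero
    field_simp
  have h7 : Tendsto (fun t : ℝ => -(SS μ l t).im / t) (𝓝[>] 0) (𝓝 (M⁻¹)) := by
    have h8 := ((Complex.continuous_im.tendsto _).comp h4).neg
    have h9 : -(Complex.I / (-((M : ℝ) : ℂ))).im = M⁻¹ := by
      rw [← Complex.ofReal_neg, Complex.div_ofReal_im, Complex.I_im]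
      field_simp
    rw [h9] at h8
    refine h8.congr fun t => ?_
    simp only [Function.comp]
    rw [Complex.div_ofReal_im, neg_div]
  have hne := ne_top hB hμ h7
  have h10 := im_tend hB hμ hne
  have h11 : (sg μ l).toReal = M⁻¹ := tendsto_nhds_unique h10 h7
  refine ⟨hne, ?_, by rw [h11, inv_mul_cancel₀ hMpos.ne']⟩
  have h12 := ((hB μ hμ l).2.1 hne).2.2.1
  have h13 : Tendsto (fun t : ℝ => SS μ l t) (𝓝[>] 0) (𝓝 0) := by
    have h14 := tend_t.mul h4
    rw [zero_mul] at h14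
    refine h14.congr' ?_
    filter_upwards [evpos] with t ht
    have htc : (t : ℂ) ≠ 0 := by exact_mod_cast ht.ne'
    field_simp
  have h15 := tendsto_nhds_unique h12 h13
  exact_mod_cast h15

/-- the imaginary part of the denominator, finite case -/
lemma D_div (hB : TaskB1) (hν : ∀ a < k, IsProbabilityMeasure (ν a))
    (hf : ∀ a < k, sg (ν a) l ≠ ⊤) :
    Tendsto (fun t : ℝ => (DD k ν l t).im / t) (𝓝[>] 0)
      (𝓝 (1 + ∑ a ∈ Finset.range k, (sg (ν a) l).toReal)) := by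
  have h1 : Tendsto (fun t : ℝ => 1 + ∑ a ∈ Finset.range k, -(SS (ν a) l t).im / t) (𝓝[>] 0)
      (𝓝 (1 + ∑ a ∈ Finset.range k, (sg (ν a) l).toReal)) := by
    refine tendsto_const_nhds.add (tendsto_finsetSum _ fun a ha => ?_)
    exact im_tend hB (hν a (Finset.mem_range.mp ha)) (hf a (Finset.mem_range.mp ha))
  refine h1.congr' ?_
  filter_upwards [evpos] with t ht
  rw [im_D t ht]

lemma case2 (hB : TaskB1) (hμ : IsProbabilityMeasure μ)
    (hν : ∀ a < k, IsProbabilityMeasure (ν a))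
    (h : ∀ t : ℝ, 0 < t → SS μ l t * DD k ν l t = 1) (hf : ∀ a < k, sg (ν a) l ≠ ⊤)
    (hs : ∑ a ∈ Finset.range k, rr (ν a) l = l) :
    μ.real {l} * (1 + ∑ a ∈ Finset.range k, (sg (ν a) l).toReal) = 1 := by
  set s : ℝ := 1 + ∑ a ∈ Finset.range k, (sg (ν a) l).toReal with hsdef
  have hspos : 0 < s := by
    have : 0 ≤ ∑ a ∈ Finset.range k, (sg (ν a) l).toReal :=
      Finset.sum_nonneg fun a _ => ENNReal.toReal_nonneg
    linarith
  have hsc : ((s : ℝ) : ℂ) ≠ 0 := by exact_mod_cast hspos.ne'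
  have h1 : Tendsto (fun t : ℝ => DD k ν l t / (t : ℂ)) (𝓝[>] 0)
      (𝓝 (((s : ℝ) : ℂ) * Complex.I)) := by
    have h2 : Tendsto (fun t : ℝ => Complex.I - ∑ a ∈ Finset.range k,
        (SS (ν a) l t - ((rr (ν a) l : ℝ) : ℂ)) / (t : ℂ)) (𝓝[>] 0)
        (𝓝 (Complex.I - ∑ a ∈ Finset.range k,
          -((((sg (ν a) l).toReal : ℝ) : ℂ)) * Complex.I)) := by
      refine tendsto_const_nhds.sub (tendsto_finsetSum _ fun a ha => ?_)
      exact ((hB (ν a) (hν a (Finset.mem_range.mp ha)) l).2.1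
        (hf a (Finset.mem_range.mp ha))).2.2.2
    have h3 : (Complex.I - ∑ a ∈ Finset.range k,
          -((((sg (ν a) l).toReal : ℝ) : ℂ)) * Complex.I) = ((s : ℝ) : ℂ) * Complex.I := by
      rw [← Finset.sum_mul, Finset.sum_neg_distrib, hsdef]
      push_cast; ring
    rw [h3] at h2
    refine h2.congr' ?_
    filter_upwards [evpos] with t ht
    have htc : (t : ℂ) ≠ 0 := by exact_mod_cast ht.ne'
    rw [← Finset.sum_div, Finset.sum_sub_distrib, ← Complex.ofReal_sum, hs]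
    unfold DD
    field_simp
    ring
  have h4 : Tendsto (fun t : ℝ => (t : ℂ) * Complex.I * SS μ l t) (𝓝[>] 0)
      (𝓝 (Complex.I / (((s : ℝ) : ℂ) * Complex.I))) := by
    have h5 := (tendsto_const_nhds (x := Complex.I)).div h1 (mul_ne_zero hsc Complex.I_ne_zero)
    refine h5.congr' ?_
    filter_upwards [evpos] with t ht
    have h6 := h t ht
    have hD : DD k ν l t ≠ 0 := right_ne_zero_of_mul_eq_one h6
    have htc : (t : ℂ) ≠ 0 := by exact_mod_cast ht.ne'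
    have hS : SS μ l t = (DD k ν l t)⁻¹ := eq_inv_of_mul_eq_one_left h6
    rw [hS]
    show Complex.I / (DD k ν l t / (t : ℂ)) = (t : ℂ) * Complex.I * (DD k ν l t)⁻¹
    field_simp
  have h7 := tendsto_nhds_unique (hB μ hμ l).1 h4
  have h8 : Complex.I / (((s : ℝ) : ℂ) * Complex.I) = ((s⁻¹ : ℝ) : ℂ) := by
    push_cast
    have := Complex.I_ne_zero
    field_simp
  rw [h8] at h7
  have h9 : μ.real {l} = s⁻¹ := by exact_mod_cast h7
  rw [h9, inv_mul_cancel₀ hspos.ne']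

lemma case3 (hB : TaskB1) (hμ : IsProbabilityMeasure μ)
    (hν : ∀ a < k, IsProbabilityMeasure (ν a))
    (h : ∀ t : ℝ, 0 < t → SS μ l t * DD k ν l t = 1) (hf : ∀ a < k, sg (ν a) l ≠ ⊤)
    (hs : ∑ a ∈ Finset.range k, rr (ν a) l ≠ l) :
    sg μ l ≠ ⊤ ∧ rr μ l * (l - ∑ a ∈ Finset.range k, rr (ν a) l) = 1 ∧
    (sg μ l).toReal = (rr μ l) ^ 2 * (1 + ∑ a ∈ Finset.range k, (sg (ν a) l).toReal) := by
  set s : ℝ := 1 + ∑ a ∈ Finset.range k, (sg (ν a) l).toReal with hsdef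
  set d : ℝ := l - ∑ a ∈ Finset.range k, rr (ν a) l with hd
  have hd0 : d ≠ 0 := by
    rw [hd, sub_ne_zero]; exact Ne.symm hs
  have hdc : ((d : ℝ) : ℂ) ≠ 0 := by exact_mod_cast hd0
  have h1 : Tendsto (fun t : ℝ => DD k ν l t) (𝓝[>] 0) (𝓝 ((d : ℝ) : ℂ)) := by
    have h2 : Tendsto (fun t : ℝ => DD k ν l t) (𝓝[>] 0)
        (𝓝 ((l : ℂ) - ∑ a ∈ Finset.range k, ((rr (ν a) l : ℝ) : ℂ))) := by
      refine (tend_z l).sub (tendsto_finsetSum _ fun a ha => ?_)
      exact ((hB (ν a) (hν a (Finset.mem_range.mp ha)) l).2.1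
        (hf a (Finset.mem_range.mp ha))).2.2.1
    rw [hd]
    push_cast
    exact h2
  have h3 : Tendsto (fun t : ℝ => SS μ l t) (𝓝[>] 0) (𝓝 (((d : ℝ) : ℂ)⁻¹)) := by
    refine (h1.inv₀ hdc).congr' ?_
    filter_upwards [evpos] with t ht
    exact (eq_inv_of_mul_eq_one_left (h t ht)).symm
  have h4 : Tendsto (fun t : ℝ => -(SS μ l t).im / t) (𝓝[>] 0) (𝓝 (s / ‖((d : ℝ) : ℂ)‖ ^ 2)) := by
    have h5 := (D_div hB hν hf).div (h1.norm.pow 2) (pow_ne_zero 2 (norm_ne_zero_iff.mpr hdc))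
    refine h5.congr' ?_
    filter_upwards [evpos] with t ht
    exact (im_S (h t ht) t).symm
  have hne := ne_top hB hμ h4
  have h5 := tendsto_nhds_unique (im_tend hB hμ hne) h4
  have h6 := tendsto_nhds_unique ((hB μ hμ l).2.1 hne).2.2.1 h3
  have h7 : rr μ l = d⁻¹ := by exact_mod_cast h6
  refine ⟨hne, by rw [h7, inv_mul_cancel₀ hd0], ?_⟩
  rw [h5, h7, Complex.norm_real, Real.norm_eq_abs, sq_abs]
  field_simp

lemma case4 (hB : TaskB1) (hμ : IsProbabilityMeasure μ)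
    (hν : ∀ a < k, IsProbabilityMeasure (ν a))
    (h : ∀ t : ℝ, 0 < t → SS μ l t * DD k ν l t = 1) (h0 : ∀ a < k, ν a {l} = 0)
    (hex : ∃ a < k, sg (ν a) l = ⊤) : μ {l} = 0 ∧ sg μ l = ⊤ := by
  -- eventually all terms are nonnegative
  have hnn : ∀ a < k, ∀ᶠ t : ℝ in 𝓝[>] (0 : ℝ), 0 < -(SS (ν a) l t).im / t := by
    intro a ha
    by_cases hs : sg (ν a) l = ⊤
    · exact ((hB (ν a) (hν a ha) l).2.2.1 hs).eventually_gt_atTop 0
    · exact (im_tend hB (hν a ha) hs).eventually_const_lt ((hB (ν a) (hν a ha) l).2.1 hs).2.1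
  have hnn' : ∀ᶠ t : ℝ in 𝓝[>] (0 : ℝ), ∀ a ∈ Finset.range k, 0 < -(SS (ν a) l t).im / t := by
    rw [Filter.eventually_all_finset]
    intro a ha
    exact hnn a (Finset.mem_range.mp ha)
  -- lower bounds for `Sig`
  have hge : ∀ a < k, ∀ᶠ t : ℝ in 𝓝[>] (0 : ℝ), -(SS (ν a) l t).im / t ≤ (DD k ν l t).im / t := by
    intro a ha
    filter_upwards [evpos, hnn'] with t ht h1
    rw [im_D t ht]
    have h2 := Finset.single_le_sum (f := fun a => -(SS (ν a) l t).im / t)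
      (fun i hi => (h1 i hi).le) (Finset.mem_range.mpr ha)
    have h3 : -(SS (ν a) l t).im / t ≤ ∑ a ∈ Finset.range k, -(SS (ν a) l t).im / t := h2
    linarith
  have hSig : Tendsto (fun t : ℝ => (DD k ν l t).im / t) (𝓝[>] 0) atTop := by
    obtain ⟨a, ha, hs⟩ := hex
    exact tendsto_atTop_mono' _ (hge a ha) ((hB (ν a) (hν a ha) l).2.2.1 hs)
  constructor
  · by_contra hm
    have hm' : μ.real {l} ≠ 0 := by
      rw [ne_eq, measureReal_eq_zero_iff]; exact hm
    have hmc : ((μ.real {l} : ℝ) : ℂ) ≠ 0 := by exact_mod_cast hm'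
    have h1 := (tendsto_const_nhds (x := Complex.I)).div (hB μ hμ l).1 hmc
    have h2 : Tendsto (fun t : ℝ => DD k ν l t / (t : ℂ)) (𝓝[>] 0)
        (𝓝 (Complex.I / ((μ.real {l} : ℝ) : ℂ))) := by
      refine h1.congr' ?_
      filter_upwards [evpos] with t ht
      have h6 := h t ht
      have hS : SS μ l t ≠ 0 := left_ne_zero_of_mul_eq_one h6
      have htc : (t : ℂ) ≠ 0 := by exact_mod_cast ht.ne'
      have hD : DD k ν l t = (SS μ l t)⁻¹ := eq_inv_of_mul_eq_one_right h6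
      rw [hD]
      show Complex.I / ((t : ℂ) * Complex.I * SS μ l t) = (SS μ l t)⁻¹ / (t : ℂ)
      have := Complex.I_ne_zero
      field_simp
    have h3 := (Complex.continuous_im.tendsto _).comp h2
    refine not_tendsto_nhds_of_tendsto_atTop hSig _ (h3.congr fun t => ?_)
    simp only [Function.comp]
    rw [Complex.div_ofReal_im]
  · by_contra hne
    have hlim := im_tend hB hμ hne
    -- `‖D‖^2 / Sig → 0`
    have hterm : ∀ a < k, Tendsto (fun t : ℝ => ‖SS (ν a) l t‖ ^ 2 / ((DD k ν l t).im / t))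
        (𝓝[>] 0) (𝓝 0) := by
      intro a ha
      by_cases hs : sg (ν a) l = ⊤
      · have h1 := (hB (ν a) (hν a ha) l).2.2.2 hs (h0 a ha)
        refine squeeze_zero' ?_ ?_ h1
        · filter_upwards [hSig.eventually_gt_atTop 0] with t h2
          positivity
        · filter_upwards [evpos, hnn a ha, hge a ha] with t ht h2 h3
          have h4 : ‖SS (ν a) l t‖ ^ 2 * t / (-(SS (ν a) l t).im) =
              ‖SS (ν a) l t‖ ^ 2 / (-(SS (ν a) l t).im / t) := by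
            rw [div_div_eq_mul_div]
          show ‖SS (ν a) l t‖ ^ 2 / ((DD k ν l t).im / t) ≤
            ‖SS (ν a) l t‖ ^ 2 * t / (-(SS (ν a) l t).im)
          rw [h4]
          exact div_le_div_of_nonneg_left (by positivity) h2 h3
      · have h1 := ((hB (ν a) (hν a ha) l).2.1 hs).2.2.1
        exact (h1.norm.pow 2).div_atTop hSig
    have hz : Tendsto (fun t : ℝ => ‖(l : ℂ) + (t : ℂ) * Complex.I‖ ^ 2 / ((DD k ν l t).im / t))
        (𝓝[>] 0) (𝓝 0) := ((tend_z l).norm.pow 2).div_atTop hSig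
    have hsum : Tendsto (fun t : ℝ => ((k : ℝ) + 1) *
        (‖(l : ℂ) + (t : ℂ) * Complex.I‖ ^ 2 / ((DD k ν l t).im / t) +
        ∑ a ∈ Finset.range k, ‖SS (ν a) l t‖ ^ 2 / ((DD k ν l t).im / t))) (𝓝[>] 0) (𝓝 0) := by
      have h1 := (hz.add (tendsto_finsetSum (Finset.range k) fun a ha =>
        hterm a (Finset.mem_range.mp ha))).const_mul ((k : ℝ) + 1)
      simpa using h1
    have hD0 : Tendsto (fun t : ℝ => ‖DD k ν l t‖ ^ 2 / ((DD k ν l t).im / t)) (𝓝[>] 0) (𝓝 0) := by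
      refine squeeze_zero' ?_ ?_ hsum
      · filter_upwards [hSig.eventually_gt_atTop 0] with t h2
        positivity
      · filter_upwards [hSig.eventually_gt_atTop 0] with t h2
        rw [← Finset.sum_div, ← add_div, ← mul_div_assoc]
        apply div_le_div_of_nonneg_right _ h2.le
        -- Cauchy-Schwarz
        have h3 : ‖DD k ν l t‖ ≤ ‖(l : ℂ) + (t : ℂ) * Complex.I‖ +
            ∑ a ∈ Finset.range k, ‖SS (ν a) l t‖ := by
          unfold DD
          exact (norm_sub_le _ _).trans (add_le_add le_rfl (norm_sum_le _ _))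
        have h4 : (‖(l : ℂ) + (t : ℂ) * Complex.I‖ +
            ∑ a ∈ Finset.range k, ‖SS (ν a) l t‖) ^ 2 ≤ ((k : ℝ) + 1) *
            (‖(l : ℂ) + (t : ℂ) * Complex.I‖ ^ 2 +
            ∑ a ∈ Finset.range k, ‖SS (ν a) l t‖ ^ 2) := by
          have h5 := sq_sum_le_card_mul_sum_sq (s := Finset.range (k + 1))
            (f := fun i => if i = k then ‖(l : ℂ) + (t : ℂ) * Complex.I‖ else ‖SS (ν i) l t‖)
          rw [Finset.sum_range_succ, Finset.sum_range_succ, Finset.card_range] at h5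
          have h6 : ∀ i ∈ Finset.range k, (if i = k then ‖(l : ℂ) + (t : ℂ) * Complex.I‖
              else ‖SS (ν i) l t‖) = ‖SS (ν i) l t‖ := by
            intro i hi
            rw [if_neg (Finset.mem_range.mp hi).ne]
          have h7 : ∀ i ∈ Finset.range k, (if i = k then ‖(l : ℂ) + (t : ℂ) * Complex.I‖
              else ‖SS (ν i) l t‖) ^ 2 = ‖SS (ν i) l t‖ ^ 2 := by
            intro i hi
            rw [if_neg (Finset.mem_range.mp hi).ne]
          rw [Finset.sum_congr rfl h6, Finset.sum_congr rfl h7, if_pos rfl] at h5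
          push_cast at h5
          rw [add_comm (‖(l : ℂ) + (t : ℂ) * Complex.I‖),
            add_comm (‖(l : ℂ) + (t : ℂ) * Complex.I‖ ^ 2)]
          exact h5
        exact (pow_le_pow_left₀ (norm_nonneg _) h3 2).trans h4
    have hpos : ∀ᶠ t : ℝ in 𝓝[>] (0 : ℝ), ‖DD k ν l t‖ ^ 2 / ((DD k ν l t).im / t) ∈ Set.Ioi (0 : ℝ) := by
      filter_upwards [evpos, hSig.eventually_gt_atTop 0] with t ht h2
      have h6 := h t ht
      have hD : DD k ν l t ≠ 0 := right_ne_zero_of_mul_eq_one h6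
      have : 0 < ‖DD k ν l t‖ := norm_pos_iff.mpr hD
      exact div_pos (by positivity) h2
    have hinf : Tendsto (fun t : ℝ => (‖DD k ν l t‖ ^ 2 / ((DD k ν l t).im / t))⁻¹) (𝓝[>] 0)
        atTop := (tendsto_nhdsWithin_iff.mpr ⟨hD0, hpos⟩).inv_tendsto_nhdsGT_zero
    refine not_tendsto_nhds_of_tendsto_atTop hinf _ (hlim.congr' ?_)
    filter_upwards [evpos] with t ht
    rw [im_S (h t ht) t, inv_div]

end

theorem b2 : TaskB2 := by
  intro hB l μ k ν hμ hν h
  have h' : ∀ t : ℝ, 0 < t → SS μ l t * DD k ν l t = 1 := by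
    intro t ht
    refine h ((l : ℂ) + (t : ℂ) * Complex.I) ?_
    simpa using ht
  exact ⟨case1 hB hμ hν h', case2 hB hμ hν h', case3 hB hμ hν h', case4 hB hμ hν h'⟩

end Pool.Agent.W340.UG
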