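import Mathlib
import Pool.Agent.W909.UG.Defs

set_option autoImplicit false

/-! UG-F: the finite exceptional set. -/

namespace Pool.Agent.W340.UG

open Polynomial Pool.Agent.W909.UG

/-- proper fractions with monic denominator -/
def Fr (a : ℝ[X] × ℝ[X]) : Prop := a.1.Monic ∧ a.2.degree < a.1.degree

/-- `x` is the value at `l` of one of the fractions in `A` -/
def Rep (A : Set (ℝ[X] × ℝ[X])) (l x : ℝ) : Prop :=
  ∃ a ∈ A, a.1.eval l ≠ 0 ∧ x * a.1.eval l = a.2.eval l

lemma Rep.mono {A B : Set (ℝ[X] × ℝ[X])} (h : A ⊆ B) {l x : ℝ} (hx : Rep A l x) : Rep B l x := by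
  obtain ⟨a, ha, h1, h2⟩ := hx
  exact ⟨a, h ha, h1, h2⟩

/-- the sum of two fractions -/
noncomputable def addF (a b : ℝ[X] × ℝ[X]) : ℝ[X] × ℝ[X] := (a.1 * b.1, a.2 * b.1 + b.2 * a.1)

lemma Fr.add {a b : ℝ[X] × ℝ[X]} (ha : Fr a) (hb : Fr b) : Fr (addF a b) := by
  refine ⟨ha.1.mul hb.1, ?_⟩
  show (a.2 * b.1 + b.2 * a.1).degree < (a.1 * b.1).degree
  have ha0 : a.1.degree ≠ ⊥ := by rw [ne_eq, degree_eq_bot]; exact ha.1.ne_zero
  have hb0 : b.1.degree ≠ ⊥ := by rw [ne_eq, degree_eq_bot]; exact hb.1.ne_zero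
  refine (degree_add_le _ _).trans_lt (max_lt ?_ ?_)
  · rw [degree_mul, degree_mul]
    exact WithBot.add_lt_add_right hb0 ha.2
  · rw [degree_mul, degree_mul, add_comm a.1.degree]
    exact WithBot.add_lt_add_right ha0 hb.2

lemma Rep.add {a b : ℝ[X] × ℝ[X]} {l x y : ℝ} (ha : a.1.eval l ≠ 0 ∧ x * a.1.eval l = a.2.eval l)
    (hb : b.1.eval l ≠ 0 ∧ y * b.1.eval l = b.2.eval l) :
    (addF a b).1.eval l ≠ 0 ∧ (x + y) * (addF a b).1.eval l = (addF a b).2.eval l := by
  unfold addF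
  simp only [eval_mul, eval_add]
  refine ⟨mul_ne_zero ha.1 hb.1, ?_⟩
  rw [← ha.2, ← hb.2]
  ring

/-- sums of at most `k` fractions -/
lemma sums (A : Set (ℝ[X] × ℝ[X])) (hA : A.Finite) (hF : ∀ a ∈ A, Fr a) (k : ℕ) :
    ∃ B : Set (ℝ[X] × ℝ[X]), B.Finite ∧ (∀ b ∈ B, Fr b) ∧ ∀ (l : ℝ) (y : ℕ → ℝ) (s : Finset ℕ),
      s.card ≤ k → (∀ i ∈ s, Rep A l (y i)) → Rep B l (∑ i ∈ s, y i) := by
  induction k with
  | zero =>
    refine ⟨{(1, 0)}, Set.finite_singleton _, ?_, ?_⟩
    · rintro b rfl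
      refine ⟨monic_one, ?_⟩
      show (0 : ℝ[X]).degree < (1 : ℝ[X]).degree
      rw [degree_zero, degree_one]
      exact WithBot.bot_lt_coe 0
    · intro l y s hs _
      rw [Nat.le_zero, Finset.card_eq_zero] at hs
      subst hs
      exact ⟨(1, 0), rfl, by simp, by simp⟩
  | succ k ih =>
    obtain ⟨B, hB, hBF, hBs⟩ := ih
    refine ⟨B ∪ Set.image2 addF A B, hB.union (hA.image2 _ hB), ?_, ?_⟩
    · rintro b (hb | ⟨a, ha, b, hb, rfl⟩)
      · exact hBF b hb
      · exact (hF a ha).add (hBF b hb)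
    · intro l y s hs hy
      rcases Nat.lt_or_ge s.card (k + 1) with h | h
      · exact (hBs l y s (by omega) hy).mono Set.subset_union_left
      · have hc : s.card = k + 1 := le_antisymm hs h
        obtain ⟨i, hi⟩ : s.Nonempty := by
          rw [← Finset.card_pos]; omega
        have h1 := hBs l y (s.erase i) (by rw [Finset.card_erase_of_mem hi]; omega)
          (fun j hj => hy j (Finset.mem_of_mem_erase hj))
        obtain ⟨b, hb, hb'⟩ := h1
        obtain ⟨a, ha, ha'⟩ := hy i hi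
        refine ⟨addF a b, Or.inr ⟨a, ha, b, hb, rfl⟩, ?_⟩
        have h2 := Rep.add ha' hb'
        rw [Finset.add_sum_erase s y hi] at h2
        exact h2

/-- the denominator of the inverse of `X - Q / P` -/
noncomputable def den (a : ℝ[X] × ℝ[X]) : ℝ[X] := X * a.1 - a.2

lemma deg_lt {a : ℝ[X] × ℝ[X]} (h : Fr a) : a.1.degree < (X * a.1).degree := by
  rw [degree_mul, degree_X, degree_eq_natDegree h.1.ne_zero]
  exact_mod_cast (by omega : a.1.natDegree < 1 + a.1.natDegree)

lemma den_monic {a : ℝ[X] × ℝ[X]} (h : Fr a) : (den a).Monic :=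
  Monic.sub_of_left (monic_X.mul h.1) (h.2.trans (deg_lt h))

lemma den_deg {a : ℝ[X] × ℝ[X]} (h : Fr a) : a.1.degree < (den a).degree := by
  unfold den
  rw [degree_sub_eq_left_of_degree_lt (h.2.trans (deg_lt h))]
  exact deg_lt h

variable {D : ℕ} {l : ℝ}

lemma bdd_sub {N : Tr} (h : Bdd D N) (a : ℕ) : Bdd D (sub N a) := fun w => h (a :: w)

lemma gd_children (T : Typed D l) {N : Tr} (h : Bdd D N) (hg : T.gd N) :
    (∀ a < N [], T.fi (sub N a)) ∧
      T.r N * (l - ∑ a ∈ Finset.range (N []), T.r (sub N a)) = 1 := by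
  have hm0 : ∀ a < N [], T.m (sub N a) = 0 := by
    intro a ha
    by_contra h0
    have h1 : 0 < T.m (sub N a) := lt_of_le_of_ne (T.hm _ (bdd_sub h a)).1 (Ne.symm h0)
    exact hg.2 (T.h1 N h ⟨a, ha, h1⟩).2.1
  have hfi : ∀ a < N [], T.fi (sub N a) := by
    intro a ha
    by_contra h0
    exact (T.h4 N h hm0 ⟨a, ha, h0⟩).2 hg.1
  refine ⟨hfi, ?_⟩
  by_cases hs : ∑ a ∈ Finset.range (N []), T.r (sub N a) = l
  · exfalso
    have h1 := T.h2 N h hfi hs
    rw [(T.hfi N h hg.1).1, zero_mul] at h1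
    exact zero_ne_one h1
  · exact (T.h3 N h hfi hs).2.1

lemma pos_children (T : Typed D l) {N : Tr} (h : Bdd D N) (hg : 0 < T.m N) :
    (∀ a < N [], T.fi (sub N a)) ∧ ∑ a ∈ Finset.range (N []), T.r (sub N a) = l := by
  have hnfi : ¬ T.fi N := by
    intro hf
    rw [(T.hfi N h hf).1] at hg
    exact lt_irrefl _ hg
  have hm0 : ∀ a < N [], T.m (sub N a) = 0 := by
    intro a ha
    by_contra h0
    have h1 : 0 < T.m (sub N a) := lt_of_le_of_ne (T.hm _ (bdd_sub h a)).1 (Ne.symm h0)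
    exact hnfi (T.h1 N h ⟨a, ha, h1⟩).1
  have hfi : ∀ a < N [], T.fi (sub N a) := by
    intro a ha
    by_contra h0
    have h1 := (T.h4 N h hm0 ⟨a, ha, h0⟩).1
    rw [h1] at hg
    exact lt_irrefl _ hg
  refine ⟨hfi, ?_⟩
  by_contra hs
  exact hnfi (T.h3 N h hfi hs).1

/-- only the good children contribute to the sum -/
lemma sum_good (T : Typed D l) {N : Tr} (hfi : ∀ a < N [], T.fi (sub N a)) :
    ∃ s : Finset ℕ, s ⊆ Finset.range (N []) ∧ (∀ a ∈ s, T.gd (sub N a)) ∧
      ∑ a ∈ Finset.range (N []), T.r (sub N a) = ∑ a ∈ s, T.r (sub N a) := by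
  classical
  refine ⟨(Finset.range (N [])).filter (fun a => T.gd (sub N a)), Finset.filter_subset _ _,
    fun a ha => (Finset.mem_filter.mp ha).2, ?_⟩
  rw [Finset.sum_filter]
  refine Finset.sum_congr rfl fun a ha => ?_
  split_ifs with h
  · rfl
  · by_contra h0
    exact h ⟨hfi a (Finset.mem_range.mp ha), h0⟩

lemma ht_le (T : Typed D l) (n : ℕ) : ∀ N : Tr, T.ht n N ≤ n := by
  classical
  induction n with
  | zero => intro N; simp [Typed.ht]
  | succ n ih =>
    intro N
    rw [Typed.ht]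
    have : (Finset.range (N [])).sup
      (fun a => if T.gd (sub N a) then T.ht n (sub N a) else 0) ≤ n := by
      refine Finset.sup_le fun a _ => ?_
      split_ifs
      · exact ih _
      · exact Nat.zero_le _
    omega

lemma ht_child (T : Typed D l) {n : ℕ} {N : Tr} (h : T.ht (n + 1) N < n + 1) {a : ℕ}
    (ha : a < N []) (hg : T.gd (sub N a)) : T.ht n (sub N a) < n := by
  classical
  rw [Typed.ht] at h
  have h1 : (if T.gd (sub N a) then T.ht n (sub N a) else 0) ≤ (Finset.range (N [])).sup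
      (fun a => if T.gd (sub N a) then T.ht n (sub N a) else 0) :=
    Finset.le_sup (f := fun a => if T.gd (sub N a) then T.ht n (sub N a) else 0)
      (Finset.mem_range.mpr ha)
  rw [if_pos hg] at h1
  omega

/-- the fractions for the good trees of height less than `n` -/
lemma fracs (D n : ℕ) : ∃ A : Set (ℝ[X] × ℝ[X]), A.Finite ∧ (∀ a ∈ A, Fr a) ∧
    ∀ (l : ℝ) (T : Typed D l) (N : Tr), Bdd D N → T.gd N → T.ht n N < n → Rep A l (T.r N) := by
  induction n with
  | zero =>
    exact ⟨∅, Set.finite_empty, fun a ha => absurd ha (Set.notMem_empty a),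
      fun l T N _ _ h => absurd h (Nat.not_lt_zero _)⟩
  | succ n ih =>
    obtain ⟨A, hA, hAF, hAr⟩ := ih
    obtain ⟨B, hB, hBF, hBr⟩ := sums A hA hAF D
    refine ⟨(fun a => (den a, a.1)) '' B, hB.image _, ?_, ?_⟩
    · rintro _ ⟨a, ha, rfl⟩
      exact ⟨den_monic (hBF a ha), den_deg (hBF a ha)⟩
    · intro l T N hN hg hh
      obtain ⟨hfi, hr⟩ := gd_children T hN hg
      obtain ⟨s, hs1, hs2, hs3⟩ := sum_good T hfi
      have hcard : s.card ≤ D := by
        refine (Finset.card_le_card hs1).trans ?_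
        rw [Finset.card_range]
        exact hN []
      obtain ⟨b, hb, hb1, hb2⟩ := hBr l (fun a => T.r (sub N a)) s hcard (fun a ha =>
        hAr l T (sub N a) (bdd_sub hN a) (hs2 a ha)
          (ht_child T hh (Finset.mem_range.mp (hs1 ha)) (hs2 a ha)))
      rw [hs3] at hr
      have key : T.r N * (den b).eval l = b.1.eval l := by
        unfold den
        rw [eval_sub, eval_mul, eval_X, ← hb2]
        linear_combination (b.1.eval l) * hr
      refine ⟨(den b, b.1), ⟨b, hb, rfl⟩, ?_, key⟩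
      show (den b).eval l ≠ 0
      intro h0
      rw [h0, mul_zero] at key
      exact hb1 key.symm

theorem x : TaskF := by
  intro D L
  obtain ⟨A, hA, hAF, hAr⟩ := fracs D L
  obtain ⟨B, hB, hBF, hBr⟩ := sums A hA hAF D
  refine ⟨⋃ b ∈ B, {l | (den b).eval l = 0}, ?_, ?_⟩
  · refine hB.biUnion fun b hb => ?_
    have h0 : den b ≠ 0 := (den_monic (hBF b hb)).ne_zero
    refine ((den b).roots.toFinset.finite_toSet).subset ?_
    intro l hl
    simp only [Finset.mem_coe, Multiset.mem_toFinset]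
    exact (mem_roots h0).mpr hl
  · intro l hl T N hN hm
    by_contra hcon
    push Not at hcon
    obtain ⟨hfi, hr⟩ := pos_children T hN hm
    obtain ⟨s, hs1, hs2, hs3⟩ := sum_good T hfi
    have hcard : s.card ≤ D := by
      refine (Finset.card_le_card hs1).trans ?_
      rw [Finset.card_range]
      exact hN []
    obtain ⟨b, hb, hb1, hb2⟩ := hBr l (fun a => T.r (sub N a)) s hcard (fun a ha =>
      hAr l T (sub N a) (bdd_sub hN a) (hs2 a ha)
        (lt_of_le_of_ne (ht_le T L _) (hcon a (Finset.mem_range.mp (hs1 ha)) (hs2 a ha))))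
    apply hl
    rw [Set.mem_iUnion₂]
    refine ⟨b, hb, ?_⟩
    show (den b).eval l = 0
    rw [hs3] at hr
    unfold den
    rw [eval_sub, eval_mul, eval_X, ← hb2, hr, sub_self]

end Pool.Agent.W340.UG
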